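import Pool.Agent.Helper70.GUM.St3

/-!
# Project GUM (MP_0bd1d1_al), module BASF: the base cases (dimension at most three)
-/

set_option autoImplicit false

namespace Pool.Agent.Helper72.GUT

open Module _root_.GUM Pool.Agent.Helper70.GUM Pool.Agent.Helper70.GUT
open UN (QE)
open OG (act Bd Stb steps Ch Wt)

universe u v w z y

/-- The data for the base case of dimension three. -/
theorem exists_ctx (hFF : StFF.{u, v}) {k : Type u} {F : Type v} {R : Type w} {K : Type z} [Field k] [Finite k] [Field F]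
    [Algebra k F] [CommRing R] [Field K] {σ : F ≃ₐ[k] F} (hσ : QE σ) (χ₀ : AddChar F R)
    (hχ : ∃ c, χ₀ c ≠ 1) (hu : IsUnit ((Nat.card k : ℕ) : R)) (hn : ((Nat.card k : ℕ) : K) + 1 ≠ 0) :
    ∃ (χ : AddChar F R) (r : R) (x : F), Ctx K σ χ r x := by
  obtain ⟨b, hb⟩ := hχ
  obtain ⟨y, hy⟩ := hσ.ne
  have hτ0 : y - σ y ≠ 0 := fun h => hy (sub_eq_zero.1 h).symm
  have hτ : (y - σ y) + σ (y - σ y) = 0 := by
    rw [map_sub, hσ.inv]
    ring
  obtain ⟨r, hr⟩ := hu.exists_left_inv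
  obtain ⟨_, x, hx1, hx2, hx3, hx4⟩ := hFF hσ
  refine ⟨AddChar.mulShift χ₀ (b / (y - σ y)), r, x, ?_⟩
  exact
    { chi := ⟨y - σ y, hτ, by
        rw [AddChar.mulShift_apply, div_mul_cancel₀ _ hτ0]
        exact hb⟩
      inv := hr
      xn := hx1
      x1 := hx2
      xj := hx3
      gen := hx4
      nz := hn }

/-- MODULE BASF. -/
theorem hBASF (hFF : StFF.{u, v}) (hFIN3 : StFIN3.{u, v, w, z, y, y}) (hUU : StUU.{u, v, y}) (hG3C : StG3C.{u, v, y})
    (hM2 : StM2.{u, v, w, z, y}) (hJB : StJB.{u, v, y}) : StBASF.{u, v, w, z, y} := by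
  intro k F R K _ _ _ _ X _ _ _ _ _ _ _ _ _ σ hσ B ψ χ hψ hχ hu hn hG hT hH Y j hY hd
  obtain ⟨hJ1, hJ2, hJ3⟩ := hJB hσ B hH Y hY
  have hpow : ∀ m : ℕ, 1 ≤ 3 ^ m := fun m => Nat.one_le_pow _ _ (by norm_num)
  rcases j with _ | _ | j
  · refine OG.Bd_mono (OG.Bd_single (⊥ : Submodule F X)) (subset_refl _) ?_ (hpow _)
    intro W hW
    exact Set.mem_singleton_iff.2 (Submodule.finrank_eq_zero.1 hW.2.1)
  · by_cases hex : ∃ p ∈ Y, p ≠ 0 ∧ B.f p p = 0
    · obtain ⟨p, hp, hp0, hpp⟩ := hex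
      obtain ⟨p', hHP⟩ := hH.exHP Y p hY hp hp0 hpp
      have h2 := hJ3 p p' hHP
      have hcase : finrank F Y = 2 ∨ finrank F Y = 3 := by omega
      rcases hcase with h | h
      · refine OG.Bd_mono (hM2 hσ B ψ hψ hu hG hT Y p p' hHP h) (subset_refl _) (subset_refl _) ?_
        rw [h]
        norm_num
      · obtain ⟨u, hu1, hu2⟩ := hUU hσ B hH Y p p' hY hHP h
        obtain ⟨G⟩ := hG3C hσ B hG hT Y p p' hHP h u hu1 hu2
        have hfin : Module.Finite k F := Module.finite_of_finrank_pos (by rw [hσ.dim]; norm_num)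
        have hFfin : Finite F := Module.finite_of_finite k
        let _i1 : Fintype k := Fintype.ofFinite k
        let _i2 : Fintype F := Fintype.ofFinite F
        obtain ⟨χ', r, x, hctx⟩ := exists_ctx (K := K) hFF hσ χ hχ hu hn
        have hcard : Fintype.card F = (Nat.card k) ^ 2 := by
          rw [← Nat.card_eq_fintype_card]
          exact (hFF hσ).1
        refine OG.Bd_mono (hFIN3 G hctx hcard) (subset_refl _) (subset_refl _) ?_
        rw [h]
        norm_num
    · have he : Sk B Y 1 = ∅ := by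
        rw [Set.eq_empty_iff_forall_notMem]
        intro W hW
        exact hex (hJ2 W hW)
      rw [zero_add, he]
      exact OG.Bd_mono OG.Bd_empty (subset_refl _) (subset_refl _) (Nat.zero_le _)
  · rw [hJ1 hd (j + 1 + 1) (by omega)]
    exact OG.Bd_mono OG.Bd_empty (subset_refl _) (subset_refl _) (Nat.zero_le _)

end Pool.Agent.Helper72.GUT
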