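import Pool.Agent.Helper70.GUM.St1

/-!
# Project GUM (MP_0bd1d1_al): module ROT, the rotation identity
-/

set_option autoImplicit false

namespace Pool.Agent.Helper72.GUM

open Pool.Agent.Helper70.GUM Module OG UN
open scoped Classical

universe u v w z

section

variable {k : Type u} {F : Type v} [Field k] [Field F] [Algebra k F] {σ : F ≃ₐ[k] F} {hσ : QE σ}

private theorem rotid {ε x : F} (hε : ε + σ ε = 1) (hx : x * σ x = 1) (h1 : ε * (1 - x) = 1)
    (a : F) (g : Hei hσ) :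
    sc hσ ε a * g = rot x g * sc hσ ε (a + g.a - x * g.a) := by
  ext
  · rw [Hei.mul_a, Hei.mul_a, sc_a hε, sc_a hε, rot_a hx]
    ring
  · rw [Hei.mul_c, Hei.mul_c, sc_c hε, sc_c hε, sc_a hε, sc_a hε, rot_c hx, rot_a hx]
    simp only [map_sub, map_add, map_mul]
    linear_combination (-(g.a * σ a)) * h1 + (a * σ g.a + g.a * σ g.a * (1 - x)) *
      (σ x * h1 + ε * hx)

private theorem invid {ε : F} (hε : ε + σ ε = 1) (a s : F) :
    (ε * a * σ s - σ (ε * a * σ s)) + σ (ε * a * σ s - σ (ε * a * σ s)) = 0 ∧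
    (sc hσ ε a)⁻¹ * sc hσ ε (a + s) = cen hσ (ε * a * σ s - σ (ε * a * σ s)) * sc hσ ε s := by
  have h0 : (ε * a * σ s - σ (ε * a * σ s)) + σ (ε * a * σ s - σ (ε * a * σ s)) = 0 := by
    rw [map_sub, hσ.inv]
    ring
  refine ⟨h0, ?_⟩
  ext
  · rw [Hei.mul_a, Hei.mul_a, Hei.inv_a, sc_a hε, sc_a hε, sc_a hε, cen_a h0]
    ring
  · rw [Hei.mul_c, Hei.mul_c, Hei.inv_c, Hei.inv_a, sc_c hε, sc_c hε, sc_c hε, sc_a hε, sc_a hε,
      sc_a hε, cen_c h0, cen_a h0]
    simp only [map_add, map_mul, map_neg, map_zero, hσ.inv]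
    linear_combination (a * σ a + s * σ a) * hε

private theorem sc_zero {ε : F} (hε : ε + σ ε = 1) : sc hσ ε 0 = 1 := by
  ext
  · rw [sc_a hε, Hei.one_a]
  · rw [sc_c hε, Hei.one_c, zero_mul, mul_zero]

end

theorem hROT : StROT.{u, v, w, z} := by
  intro k F R K _ _ _ _ _ σ _ _ _ _ hσ χ r x C S B f hf g
  set ε : F := ep x 1 with hεd
  have hq : 1 ≤ Nat.card k := le_trans (by norm_num) S.two
  have hε : ε + σ ε = 1 := S.tr1 1 le_rfl hq
  have hx1 : (1 - x : F) ≠ 0 := by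
    intro h
    apply C.xj 1 le_rfl hq
    rw [pow_one]
    exact (sub_eq_zero.1 h).symm
  have h1 : ε * (1 - x) = 1 := by
    rw [hεd, ep, pow_one]
    exact inv_mul_cancel₀ hx1
  have hε0 : ε ≠ 0 := left_ne_zero_of_mul_eq_one h1
  have hσε0 : σ ε ≠ 0 := fun h => hε0 ((map_eq_zero σ).1 h)
  have inner : ∀ a : F, ∑ a' : F, f ((sc hσ ε a)⁻¹ * rot x g * sc hσ ε a') =
      ∑ s : F, χ (σ ε * s * σ a - a * σ (σ ε * s)) • f (sc hσ ε s * g) := by
    intro a
    rw [← Equiv.sum_comp (Equiv.addLeft (a + g.a - x * g.a))]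
    refine Finset.sum_congr rfl fun s _ => ?_
    obtain ⟨h0, h2⟩ := invid (hσ := hσ) hε a s
    have h3 := rotid (hσ := hσ) hε C.xn h1 (a + s) g
    have e1 : (Equiv.addLeft (a + g.a - x * g.a)) s = a + s + g.a - x * g.a := by
      rw [Equiv.coe_addLeft]
      ring
    rw [e1, mul_assoc, ← h3, ← mul_assoc, h2, mul_assoc, mem_Fun.1 hf _ _ h0]
    congr 2
    simp only [map_mul, hσ.inv]
    ring
  have total : ∑ a : F, ∑ a' : F, f ((sc hσ ε a)⁻¹ * rot x g * sc hσ ε a') =
      ((Fintype.card F : ℕ) : R) • f g := by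
    rw [Finset.sum_congr rfl fun a _ => inner a, Finset.sum_comm]
    have e2 : ∀ s : F, ∑ a : F, χ (σ ε * s * σ a - a * σ (σ ε * s)) • f (sc hσ ε s * g) =
        if s = 0 then ((Fintype.card F : ℕ) : R) • f g else 0 := by
      intro s
      rw [← Finset.sum_smul]
      split_ifs with hs
      · subst hs
        rw [sc_zero hε, one_mul]
        congr 1
        simp only [mul_zero, zero_mul, map_zero, sub_zero, AddChar.map_zero_eq_one,
          Finset.sum_const, Finset.card_univ, nsmul_eq_mul, mul_one]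
      · rw [S.sw _ (mul_ne_zero hσε0 hs), zero_smul]
    rw [Finset.sum_congr rfl fun s _ => e2 s]
    simp
  rw [XL_apply]
  simp only [XR_apply, Finset.sum_neg_distrib, smul_neg, neg_neg, ← Finset.smul_sum]
  rw [total, smul_smul, smul_smul]
  have e3 : r * r * ((Fintype.card F : ℕ) : R) = 1 := by
    rw [S.cardF]
    push_cast
    linear_combination (r * (Nat.card k : R) + 1) * C.inv
  rw [e3, one_smul]

end Pool.Agent.Helper72.GUM
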